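import Pool.Agent.Y8.EP.St

/-! The induction over the stages (endpoint dynamics; adapted from `Pool.Agent.Y363.NF.IND`). -/

open Set Filter Topology MeasureTheory

set_option autoImplicit false

namespace Pool.Agent.Y319.EP

open Pool.Agent.Y5.E (At Aw Ut Uw loc)
open Pool.Agent.Y5.F (vfk Yk Wk)
open Pool.Agent.Y8.EP

variable {κ lam N : ℝ} {L C ℓ : ℕ → ℝ} {B : ℕ → ℕ → ℝ} {T : ℝ} {x w f : ℕ → ℝ → ℝ}
variable {n : ℕ} {σ : ℕ → ℝ} {t1 : ℝ}

/-- the times of the stages are increasing -/
lemma ind_mono (h : Stg κ lam L T x w n σ) : ∀ k i, i + k ≤ n → σ i ≤ σ (i + k) := by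
  intro k
  induction k with
  | zero => intro i _; exact le_rfl
  | succ k ih =>
    intro i hi
    have h1 := ih i (by omega)
    have h2 := h.σlt (i + k) (by omega)
    rw [← add_assoc]
    linarith

lemma ind_mono' (h : Stg κ lam L T x w n σ) {i : ℕ} (hi : i ≤ n) : σ i ≤ σ n := by
  have h1 := ind_mono h (n - i) i (by omega)
  rwa [show i + (n - i) = n by omega] at h1

lemma ind_nn (h : Stg κ lam L T x w n σ) : 0 ≤ σ n := by
  have h1 := ind_mono' h (Nat.zero_le n)
  rwa [h.σ0] at h1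

lemma dd_small (q : Pe κ lam N L C ℓ B) : dd lam ≤ 1 / 10 ^ 20 := by
  rw [dd]
  exact q.exp_small (by norm_num)

/-- One step of the induction. -/
theorem ind_step (hCC : S_CURC) (g : Gd κ lam N L C ℓ B T x w f) (h : Stg κ lam L T x w n σ) :
    Cur κ lam L T x w n σ T ∨ ∃ σ', Stg κ lam L T x w (n + 1) σ' := by
  have q := g.q
  have hlm := q.lamp
  have hlmb := q.lam_big
  have hLp := q.Lp n
  have h0 : 0 ≤ σ n := ind_nn h
  set T' := min T (σ n + 62 / 100 * lam / L n) with hT'
  have hσT' : σ n < T' := lt_min h.σT (by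
    have : 0 < 62 / 100 * lam / L n := by positivity
    linarith)
  have hT'T : T' ≤ T := min_le_left _ _
  set F : ℝ → ℝ := fun t => max (Yk κ x w (n + 1) t - 1) (99 / 100 - x n t) with hF
  have hsub : Ico (σ n) T' ⊆ Ico 0 T := fun t ht => ⟨h0.trans ht.1, ht.2.trans_le hT'T⟩
  have hfc : ContinuousOn F (Ico (σ n) T') := by
    refine ContinuousOn.sup ?_ ?_
    · exact ((g.Ycont (n + 1)).mono hsub).sub continuousOn_const
    · exact continuousOn_const.sub ((g.cont n).mono hsub)
  have hf0 : F (σ n) < 0 := by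
    refine max_lt ?_ ?_
    · have h1 := h.tl 0
      rw [add_zero] at h1
      have h3 : Real.exp (-(Pp 0) * lam) ≤ 1 / 10 ^ 20 := q.exp_small (by
        rw [Pp]; norm_num)
      have h2 : √(Yk κ x w (n + 1) (σ n)) < 1 := by
        refine lt_of_le_of_lt (h1.trans h3) (by norm_num)
      have h6 : Yk κ x w (n + 1) (σ n) < 1 ^ 2 := by
        rw [← Real.sq_sqrt (g.Y_nonneg (n + 1) (σ n))]
        gcongr
      linarith
    · have := h.init; linarith
  rcases Pool.Agent.Y5.first_time hfc hf0 with hI | ⟨t1, ht1, hft1, hbelow⟩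
  · -- incomplete stage
    left
    have hc : Cur κ lam L T x w n σ T' := ⟨hσT', hT'T, min_le_right _ _, fun t ht => by
      have h1 := hI t ht
      have h2 := (max_lt_iff.1 h1)
      exact ⟨by linarith [h2.1], by linarith [h2.2]⟩⟩
    have hdur : (T' - σ n) * L n ≤ 611 / 1000 * lam := by
      by_contra hcon
      push Not at hcon
      set v := σ n + 611 / 1000 * lam / L n with hv
      have hv1 : σ n < v := by
        have : 0 < 611 / 1000 * lam / L n := by positivity
        linarith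
      have hv2 : v < T' := by
        have : 611 / 1000 * lam / L n < T' - σ n := by
          rw [div_lt_iff₀ hLp]; exact hcon
        linarith
      obtain ⟨t, ht1, ht2⟩ := exists_between hv2
      have h1 := (hCC κ lam N L C ℓ B T x w f n σ T' g h hc t ⟨hv1.trans ht1, ht2⟩).time
      have h2 : 611 / 1000 * lam < (t - σ n) * L n := by
        rw [← div_lt_iff₀ hLp]; linarith
      linarith
    have hT'eq : T' = T := by
      by_contra hne
      have h1 : T' = σ n + 62 / 100 * lam / L n := by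
        rcases min_choice T (σ n + 62 / 100 * lam / L n) with h2 | h2
        · exact absurd h2 hne
        · exact h2
      have h2 : (T' - σ n) * L n = 62 / 100 * lam := by
        rw [h1, add_sub_cancel_left, div_mul_cancel₀ _ hLp.ne']
      linarith
    rwa [hT'eq] at hc
  · -- complete stage
    right
    have ht1T : t1 < T := ht1.2.trans_le hT'T
    have ht10 : 0 < t1 := h0.trans_lt ht1.1
    have hc : Cur κ lam L T x w n σ t1 := ⟨ht1.1, ht1T.le, ht1.2.le.trans (min_le_right _ _),
      fun t ht => by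
        have h1 := hbelow t ht
        have h2 := (max_lt_iff.1 h1)
        exact ⟨by linarith [h2.1], by linarith [h2.2]⟩⟩
    have hcc := hCC κ lam N L C ℓ B T x w f n σ t1 g h hc
    have hX : 9998 / 10000 ≤ x n t1 := by
      have := Pool.Agent.Y5.lim_le (f := fun τ => -(x n τ)) (T := T) (α := σ n) (t := t1)
        (c := -(9998 / 10000)) (g.cont n).neg h0 ht1T ht1.1 (fun τ hτ => by
          have := (hcc τ hτ).X
          linarith)
      linarith
    have hY1 : Yk κ x w (n + 1) t1 = 1 := by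
      have h1 : 99 / 100 - x n t1 < 0 := by linarith
      have h2 : max (Yk κ x w (n + 1) t1 - 1) (99 / 100 - x n t1) = 0 :=
        hft1
      rcases max_choice (Yk κ x w (n + 1) t1 - 1) (99 / 100 - x n t1) with h3 | h3
      · rw [h3] at h2; linarith
      · rw [h3] at h2; linarith
    have hCp := q.Cp n
    have hCs := q.C_small n
    have hZ0 : -(C n / 8) ≤ x (n + 1) t1 := by
      have h2 := Pool.Agent.Y5.lim_le (f := fun τ => -(x (n + 1) τ)) (T := T)
        (α := σ n) (t := t1) (c := C n / 8) (g.cont (n + 1)).neg h0 ht1T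
        ht1.1 (fun τ hτ => by
          have h3 := (hcc τ hτ).r
          linarith)
      linarith
    have hw1 : w (n + 1) t1 ≤ dd lam :=
      Pool.Agent.Y5.lim_le (T := T) (α := σ n) (g.wcont (n + 1)) h0 ht1T ht1.1
        (fun τ hτ => (hcc τ hτ).w1)
    have htl : ∀ j : ℕ, √(Yk κ x w (n + 2 + j) t1) ≤ Real.exp (-(Pp j) * lam) := fun j =>
      Pool.Agent.Y5.lim_le (f := fun τ => √(Yk κ x w (n + 2 + j) τ)) (T := T) (α := σ n)
        (g.Ycont (n + 2 + j)).sqrt h0 ht1T ht1.1 (fun τ hτ => (hcc τ hτ).tl j)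
    have htw : ∀ j : ℕ, w (n + 2 + j) t1 ≤ dd lam * Real.exp (-(Pp j) * lam) := fun j =>
      Pool.Agent.Y5.lim_le (T := T) (α := σ n) (g.wcont (n + 2 + j)) h0 ht1T ht1.1
        (fun τ hτ => (hcc τ hτ).tw j)
    have hng : ∀ j : ℕ, -(Real.exp (-(Pn j) * lam)) ≤ x (n + 2 + j) t1 := fun j => by
      have := Pool.Agent.Y5.lim_le (f := fun τ => -(x (n + 2 + j) τ)) (T := T) (α := σ n)
        (t := t1) (c := Real.exp (-(Pn j) * lam))
        (g.cont (n + 2 + j)).neg h0 ht1T ht1.1 (fun τ hτ => by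
          have := (hcc τ hτ).ng j
          linarith)
      linarith
    refine ⟨fun i => if i ≤ n then σ i else t1, ?_⟩
    have hn1 : ¬ (n + 1 ≤ n) := by omega
    constructor
    · simp [h.σ0]
    · intro i hi
      rcases Nat.lt_succ_iff_lt_or_eq.1 hi with h1 | h1
      · rw [if_pos (by omega), if_pos (by omega)]; exact h.σlt i h1
      · subst h1
        rw [if_pos le_rfl, if_neg (by omega)]; exact ht1.1
    · rw [if_neg hn1]; exact ht1T
    · intro i hi
      rcases Nat.lt_succ_iff_lt_or_eq.1 hi with h1 | h1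
      · rw [if_pos (by omega), if_pos (by omega)]; exact h.dur i h1
      · subst h1
        rw [if_pos le_rfl, if_neg (by omega)]
        have := hc.le
        linarith
    · intro i hi
      rcases Nat.lt_succ_iff_lt_or_eq.1 (Nat.lt_succ_of_le hi) with h1 | h1
      · rw [if_pos (by omega)]; exact h.aY i (by omega)
      · subst h1
        rw [if_neg (by omega), hY1, Real.sqrt_one]
    · intro i hi
      rcases Nat.lt_succ_iff_lt_or_eq.1 (Nat.lt_succ_of_le hi) with h1 | h1
      · rw [if_pos (by omega)]; exact h.wi i (by omega)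
      · subst h1
        rw [if_neg (by omega)]
        exact hw1
    · rw [if_neg hn1]
      have h1 := g.Y_succ (t := t1) ⟨ht10.le, ht1T⟩ (n + 1)
      rw [hY1] at h1
      have e : n + 1 + 1 = n + 2 := rfl
      rw [e] at h1
      -- the tail is small
      have h3 : √(Yk κ x w (n + 2) t1) ≤ 1 / 10 ^ 6 := by
        have h4 := htl 0
        rw [add_zero] at h4
        have h5 : Real.exp (-(Pp 0) * lam) ≤ 1 / 10 ^ 20 := q.exp_small (by
          rw [Pp]; norm_num)
        exact (h4.trans h5).trans (by norm_num)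
      have h4 : Yk κ x w (n + 2) t1 ≤ (1 / 10 ^ 6) ^ 2 := by
        rw [← Real.sq_sqrt (g.Y_nonneg (n + 2) t1)]
        gcongr
      have hw0 := g.sy.w0 (n + 1) t1 ⟨ht10.le, ht1T⟩
      have h4w : w (n + 1) t1 ≤ 1 / 10 ^ 6 := (hw1.trans (dd_small q)).trans (by norm_num)
      have h4w2 : w (n + 1) t1 ^ 2 ≤ (1 / 10 ^ 6) ^ 2 := by gcongr
      have hκY : κ ^ 2 * Yk κ x w (n + 2) t1 ≤ Yk κ x w (n + 2) t1 :=
        mul_le_of_le_one_left (g.Y_nonneg (n + 2) t1) q.κsq
      have h5 : (9999 / 10000) ^ 2 ≤ x (n + 1) t1 ^ 2 := by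
        have e1 : (1 / 10 ^ 6 : ℝ) ^ 2 = 1 / 10 ^ 12 := by norm_num
        rw [e1] at h4 h4w2
        norm_num
        norm_num at h4 h4w2
        linarith
      have h6 : 9999 / 10000 ≤ |x (n + 1) t1| := by
        exact (le_abs_self _).trans (sq_le_sq.1 h5)
      rcases le_total 0 (x (n + 1) t1) with h7 | h7
      · rwa [abs_of_nonneg h7] at h6
      · rw [abs_of_nonpos h7] at h6
        exfalso
        linarith
    · intro _
      rw [if_neg hn1, Nat.add_sub_cancel]
      linarith
    · intro j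
      rw [if_neg hn1]
      exact htl j
    · intro j
      rw [if_neg hn1]
      exact hng j
    · intro j
      rw [if_neg hn1]
      exact htw j

lemma ind_base (g : Gd κ lam N L C ℓ B T x w f) :
    Stg κ lam L T x w 0 (fun _ => 0) := by
  have hx : ∀ j : ℕ, x (0 + 1 + j) 0 = 0 := fun j => by
    have e : 0 + 1 + j = j + 1 := by omega
    rw [e]; exact g.sy.xs j
  have hY1 : ∀ j : ℕ, Yk κ x w (0 + 1 + j) 0 = 0 := by
    intro j
    rw [Yk]
    have : ∀ k : ℕ, x (0 + 1 + j + k) 0 ^ 2 + w (0 + 1 + j + k) 0 ^ 2 = 0 := fun k => by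
      rw [add_assoc, hx, g.sy.ws]; norm_num
    simp only [this, mul_zero, tsum_zero]
  have hY0 := hY1 0
  rw [add_zero] at hY0
  have hdd : 0 < dd lam := Real.exp_pos _
  constructor
  · rfl
  · intro i hi; omega
  · exact g.hT
  · intro i hi; omega
  · intro i hi
    have : i = 0 := by omega
    subst this
    rw [g.Y_succ ⟨le_rfl, g.hT⟩ 0, g.sy.x0, g.sy.ws, hY0]
    norm_num
  · intro i hi
    have : i = 0 := by omega
    subst this
    rw [g.sy.ws]
    exact hdd.le
  · rw [g.sy.x0]; norm_num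
  · intro h; exact absurd rfl h
  · intro j
    rw [hY1, Real.sqrt_zero]
    positivity
  · intro j
    rw [hx, neg_nonpos]
    positivity
  · intro j
    rw [g.sy.ws]
    positivity

/-- growth at the beginning of a stage -/
lemma ind_grow (hU : S_UB) (g : Gd κ lam N L C ℓ B T x w f) (h : Stg κ lam L T x w n σ) :
    ∃ t ∈ Ico 0 T, ∃ a, (9 / 1000) ^ n ≤ a ∧ 99 / 100 * a ≤ x n t ∧
    (∀ i < n, |x i t| ≤ 200 * (1000 / 9) ^ (n - i) * a) ∧
    (∀ i ≤ n, w i t ≤ Real.exp (-(lam / 10)) * (1000 / 9) ^ (n - i) * a) ∧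
    ∀ k : ℕ, √(Yk κ x w (n + 1 + k) t) ≤ Real.exp (-(lam / 250 * (k + 1))) * a := by
  have q := g.q
  have hlm := q.lamp
  have hlmb := q.lam_big
  have h0 : 0 ≤ σ n := ind_nn h
  have hLp := q.Lp n
  have hp : 0 < 62 / 100 * lam / L n := by positivity
  have hUB := (hU κ lam N L C ℓ B T x w f n σ (min T (σ n + 62 / 100 * lam / L n)) g h
    (min_le_left _ _) (min_le_right _ _)).1
  have hlt : σ n < min T (σ n + 62 / 100 * lam / L n) := lt_min h.σT (by linarith)
  refine ⟨σ n, ⟨h0, h.σT⟩, 1, ?_, ?_, ?_, ?_, ?_⟩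
  · exact pow_le_one₀ (by norm_num) (by norm_num)
  · have := h.init; linarith
  · intro i hi
    have h1 := hUB.Y i hi.le (σ n) ⟨ind_mono' h hi.le, hlt⟩
    have h3 := g.x_le ⟨h0, h.σT⟩ i
    have h4 : (1 : ℝ) ≤ (1000 / 9) ^ (n - i) := one_le_pow₀ (by norm_num)
    linarith
  · intro i hi
    have h1 := hUB.w i hi (σ n) ⟨ind_mono' h hi, hlt⟩
    have h3 : dd lam ≤ Real.exp (-(lam / 10)) := by
      rw [dd]
      apply Real.exp_le_exp.2
      linarith
    have h4 : (1 : ℝ) ≤ (1000 / 9) ^ (n - i) := one_le_pow₀ (by norm_num)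
    have h5 : Real.exp (-(lam / 10)) * 1 ≤ Real.exp (-(lam / 10)) * (1000 / 9) ^ (n - i) :=
      mul_le_mul_of_nonneg_left h4 (Real.exp_pos _).le
    rw [mul_one]
    linarith
  · intro k
    refine (h.tl k).trans ?_
    rw [mul_one]
    refine Real.exp_le_exp.2 ?_
    have hk : (0 : ℝ) ≤ k := Nat.cast_nonneg k
    have h1 : 1 / 250 * ((k : ℝ) + 1) ≤ Pp k := by rw [Pp]; linarith
    have h2 := mul_le_mul_of_nonneg_right h1 hlm.le
    linarith

/-- the times of the stages are bounded -/
lemma ind_tot (hU : S_UB) (g : Gd κ lam N L C ℓ B T x w f) (h : Stg κ lam L T x w n σ)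
    (h1 : t1 ≤ T) (h2 : t1 ≤ σ n + 62 / 100 * lam / L n) : t1 ≤ lam := by
  have q := g.q
  have hlm := q.lamp
  have h3 := (hU κ lam N L C ℓ B T x w f n σ t1 g h h1 h2).2 0 (Nat.zero_le n)
  rw [h.σ0, sub_zero] at h3
  have h4 := q.L0
  by_contra hcon
  push Not at hcon
  nlinarith

/-- **Induction over the stages.** -/
theorem t_IND : S_IND := by
  intro hU hCC κ lam N L C ℓ B hq
  refine ⟨lam, ?_⟩
  intro T x w f hT hsys
  have g : Gd κ lam N L C ℓ B T x w f := ⟨hq, hT, hsys⟩
  have q := g.q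
  have hlm := q.lamp
  by_cases hcur : ∃ (n : ℕ) (σ : ℕ → ℝ), Stg κ lam L T x w n σ ∧ Cur κ lam L T x w n σ T
  · obtain ⟨n, σ, h, hc⟩ := hcur
    have h0 : 0 ≤ σ n := ind_nn h
    have hσT := hc.lt
    refine ⟨ind_tot hU g h le_rfl hc.le, Or.inr ⟨n + 2, 1, (σ n + T) / 2,
      ⟨by linarith, by linarith⟩, ?_⟩⟩
    intro t ht k
    have h1 := (hCC κ lam _ L C ℓ B T x w f n σ T g h hc t
      ⟨by linarith [ht.1], ht.2⟩).tl k
    refine h1.trans ?_
    rw [one_mul]
    refine Real.exp_le_exp.2 ?_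
    have hk : (0 : ℝ) ≤ k := Nat.cast_nonneg k
    have h2 : 1 / 100 * (k : ℝ) ≤ Pp k := by rw [Pp]; linarith
    have h3 := mul_le_mul_of_nonneg_right h2 hlm.le
    linarith
  · have hall : ∀ n, ∃ σ, Stg κ lam L T x w n σ := by
      intro n
      induction n with
      | zero => exact ⟨_, ind_base g⟩
      | succ n ih =>
        obtain ⟨σ, h⟩ := ih
        rcases ind_step hCC g h with h1 | h1
        · exact absurd ⟨n, σ, h, h1⟩ hcur
        · exact h1
    refine ⟨?_, Or.inl fun n => ?_⟩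
    · by_contra hcon
      push Not at hcon
      obtain ⟨Mx, hM⟩ := g.sy.bdd lam hcon
      have htend : Tendsto (fun n : ℕ => (2 : ℝ) ^ n * (1 / 2)) atTop atTop :=
        (tendsto_pow_atTop_atTop_of_one_lt one_lt_two).atTop_mul_const (by norm_num)
      obtain ⟨n, hn⟩ := (htend.eventually_gt_atTop Mx).exists
      obtain ⟨σ, h⟩ := hall n
      have hLp := q.Lp n
      have hp : 0 < 62 / 100 * lam / L n := by positivity
      have h0 : 0 ≤ σ n := ind_nn h
      have hσ := ind_tot hU g h (t1 := σ n) h.σT.le (by linarith)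
      have h1 := hM (σ n) ⟨h0, hσ⟩ n
      have hw0 := g.sy.w0 n (σ n) ⟨h0, h.σT⟩
      have h2 : 2 ^ n * (1 / 2) ≤ L n ^ 10 * (|x n (σ n)| + w n (σ n)) := by
        have h4 := h.init
        have h5 := q.Lpow' n
        have h6 := q.L1 n
        have h8 : (2 : ℝ) ^ n ≤ (10 ^ 30) ^ n := by gcongr; norm_num
        have h9 : L n ≤ L n ^ 10 := by
          calc L n = L n ^ 1 := (pow_one _).symm
            _ ≤ L n ^ 10 := pow_le_pow_right₀ h6 (by norm_num)
        have h10 : 1 / 2 ≤ |x n (σ n)| + w n (σ n) := by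
          have := le_abs_self (x n (σ n))
          linarith
        exact mul_le_mul (h8.trans (h5.trans h9)) h10 (by norm_num) (by positivity)
      linarith
    · obtain ⟨σ, h⟩ := hall n
      exact ind_grow hU g h

end Pool.Agent.Y319.EP
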