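import Pool.Agent.Y8.EP.Stm

/-!
Choice of the scales `K n = K₀ * R ^ n`, `lam = R ^ (5/2)`, `μ = R ^ (2 α)`,
`κ = R ^ (2 α - 5/2)`, `γ = κ * exp (-(6/100) * μ)`, `ℓ (n+1) = 9/10 * κ^n * L n`
(statement `S_SEQ5` of `Pool.Agent.Y8.EP.Stm`; adapted from `Pool.Agent.Y417.NF.SEQ4`).
-/

open Set Filter Topology

set_option autoImplicit false

namespace Pool.Agent.Y319.EP

open Pool.Agent.Y8.EP

theorem ev_exp (c : ℝ) (k : ℕ) {b : ℝ} (hb : 0 < b) :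
    ∀ᶠ R : ℕ in atTop, c * (R : ℝ) ^ k ≤ Real.exp (b * R) := by
  have h := (isLittleO_pow_exp_pos_mul_atTop k hb).def
    (show (0 : ℝ) < 1 / (|c| + 1) by positivity)
  have h2 := (tendsto_natCast_atTop_atTop (R := ℝ)).eventually h
  filter_upwards [h2] with R hR
  rw [Real.norm_of_nonneg (by positivity), Real.norm_of_nonneg (by positivity)] at hR
  have h3 : |c| * (R : ℝ) ^ k ≤ |c| * (1 / (|c| + 1) * Real.exp (b * R)) :=
    mul_le_mul_of_nonneg_left hR (abs_nonneg c)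
  have h4 : |c| * (1 / (|c| + 1)) ≤ 1 := by
    rw [mul_one_div, div_le_one (by positivity)]
    linarith
  calc c * (R : ℝ) ^ k ≤ |c| * (R : ℝ) ^ k :=
        mul_le_mul_of_nonneg_right (le_abs_self c) (by positivity)
    _ ≤ |c| * (1 / (|c| + 1)) * Real.exp (b * R) := by rw [mul_assoc]; exact h3
    _ ≤ 1 * Real.exp (b * R) := mul_le_mul_of_nonneg_right h4 (Real.exp_pos _).le
    _ = Real.exp (b * R) := one_mul _

/-- `x ^ 2 * √x = x ^ (5/2)` -/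
theorem sq_sqrt_eq {x : ℝ} (hx : 0 < x) : x ^ 2 * √x = x ^ (5 / 2 : ℝ) := by
  rw [Real.sqrt_eq_rpow, ← Real.rpow_natCast x 2, ← Real.rpow_add hx]
  norm_num

/-- `(K R^n) ^ a = K ^ a * (R ^ a) ^ n` -/
theorem geom_rpow {K R : ℝ} (hK : 0 < K) (hR : 0 < R) (a : ℝ) (n : ℕ) :
    (K * R ^ n) ^ a = K ^ a * (R ^ a) ^ n := by
  rw [Real.mul_rpow hK.le (by positivity), ← Real.rpow_natCast R n,
    ← Real.rpow_natCast (R ^ a) n, ← Real.rpow_mul hR.le, ← Real.rpow_mul hR.le,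
    mul_comm (n : ℝ)]

theorem t_SEQ5 : S_SEQ5 := by
  intro ν α β D p K₁ hν hα hα' hβ hD hK₁
  have hδ : 0 < 5 / 2 - 2 * α := by linarith
  have hδ1 : Tendsto (fun R : ℕ => (R : ℝ) ^ (5 / 2 - 2 * α)) atTop atTop :=
    (tendsto_rpow_atTop hδ).comp tendsto_natCast_atTop_atTop
  obtain ⟨c6, hc6⟩ : ∃ c : ℝ, c = (10 ^ 6 * (1 + 100 / β) ^ 4) ^ 10 := ⟨_, rfl⟩
  -- choice of `R`
  obtain ⟨R, hR1, hR2, hR3, hR4, hR5, hR6, hR7⟩ := (((eventually_ge_atTop K₁).and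
    ((eventually_ge_atTop (10 ^ 15)).and
    ((ev_exp 1 p (b := 1 / 10000) (by norm_num)).and
    ((ev_exp (2 * ν * 729 / β) 3 (b := 1) (by norm_num)).and
    ((ev_exp (1 / D) 2 (b := 1 / 1000) (by norm_num)).and
    ((ev_exp c6 210 (b := 1 / 10 ^ 6) (by norm_num)).and
    (hδ1.eventually_ge_atTop 1000))))))).exists)
  have hF6 := Fact.mk hR6
  have hF5 := Fact.mk hR5
  have hF4 := Fact.mk hR4
  have hFc := Fact.mk hc6
  clear hR6 hR5 hR4 hc6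
  have hRr : (10 : ℝ) ^ 15 ≤ R := by exact_mod_cast hR2
  have hR0 : (0 : ℝ) < R := by linarith [show (0 : ℝ) < 10 ^ 15 by norm_num]
  have hR1' : (1 : ℝ) ≤ R := by linarith [show (1 : ℝ) ≤ 10 ^ 15 by norm_num]
  set lam : ℝ := (R : ℝ) ^ 2 * √(R : ℝ) with hlam
  have hlame : lam = (R : ℝ) ^ (5 / 2 : ℝ) := sq_sqrt_eq hR0
  set μ : ℝ := (R : ℝ) ^ (2 * α) with hμ
  set κ : ℝ := (R : ℝ) ^ (2 * α - 5 / 2) with hκ
  have hκ0 : 0 < κ := Real.rpow_pos_of_pos hR0 _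
  have hκ1 : κ ≤ 1 := Real.rpow_le_one_of_one_le_of_nonpos hR1' (by linarith)
  have hκs : κ ≤ 1 / 1000 := by
    have h1 : κ = ((R : ℝ) ^ (5 / 2 - 2 * α))⁻¹ := by
      rw [hκ, ← Real.rpow_neg hR0.le]
      congr 1
      ring
    rw [h1, inv_eq_one_div]
    exact one_div_le_one_div_of_le (by norm_num) hR7
  have hμκ : μ = κ * lam := by
    rw [hμ, hκ, hlame, ← Real.rpow_add hR0]
    congr 1
    ring
  have hμ0 : 0 < μ := Real.rpow_pos_of_pos hR0 _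
  have hμR2 : (R : ℝ) ^ 2 ≤ μ := by
    rw [hμ, ← Real.rpow_natCast (R : ℝ) 2]
    exact Real.rpow_le_rpow_of_exponent_le hR1' (by push_cast; linarith)
  have hμR : (R : ℝ) ≤ μ := by nlinarith
  have hμl : μ ≤ lam := by
    rw [hμ, hlame]
    exact Real.rpow_le_rpow_of_exponent_le hR1' (by linarith)
  have hlam0 : 0 < lam := by linarith
  have hlam3 : lam ≤ (R : ℝ) ^ 3 := by
    rw [hlame, ← Real.rpow_natCast (R : ℝ) 3]
    exact Real.rpow_le_rpow_of_exponent_le hR1' (by push_cast; norm_num)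
  have hexp : ∀ b : ℝ, 0 ≤ b → Real.exp (b * R) ≤ Real.exp (b * μ) := fun b hb =>
    Real.exp_le_exp.2 (mul_le_mul_of_nonneg_left hμR hb)
  -- the constant
  set Q : ℝ := 8 * (ν * (2 * Real.pi) ^ (2 * α)) with hQ
  have hpi : 0 < (2 * Real.pi) ^ (2 * α) := Real.rpow_pos_of_pos (by positivity) _
  have hQ0 : 0 < Q := by positivity
  -- choice of `K₀`
  obtain ⟨N, hN⟩ := eventually_atTop.1 ((eventually_ge_atTop K₁).and
    ((eventually_ge_atTop (10 ^ 6)).and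
    (((tendsto_natCast_atTop_atTop (R := ℝ)).eventually_ge_atTop (1 / D)).and
    (((tendsto_natCast_atTop_atTop (R := ℝ)).eventually_ge_atTop (1 / β)).and
    (hδ1.eventually_ge_atTop (10 ^ 6 * Q * lam / β))))))
  obtain ⟨hK1, hK2, hK3, hK4, hK5⟩ := hN (20 * N) (by omega)
  set K₀ : ℕ := 20 * N with hK₀
  have hKr : (10 : ℝ) ^ 6 ≤ K₀ := by exact_mod_cast hK2
  have hK0 : (0 : ℝ) < K₀ := by linarith [show (0 : ℝ) < 10 ^ 6 by norm_num]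
  have hK1' : (1 : ℝ) ≤ K₀ := by linarith [show (1 : ℝ) ≤ 10 ^ 6 by norm_num]
  have hsK : 1 ≤ √(K₀ : ℝ) := by rw [Real.one_le_sqrt]; exact hK1'
  have hRn : ∀ n : ℕ, (1 : ℝ) ≤ (R : ℝ) ^ n := fun n => one_le_pow₀ hR1'
  have hKRn : ∀ n : ℕ, (1 : ℝ) ≤ (K₀ : ℝ) * (R : ℝ) ^ n := fun n => by
    nlinarith [hRn n]
  have hRp : (R : ℝ) ^ p ≤ Real.exp (1 / 10000 * μ) := by
    have := hR3.trans (hexp (1 / 10000) (by norm_num))
    linarith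
  have hRp0 : (0 : ℝ) < (R : ℝ) ^ p := by positivity
  have hkey : 10 ^ 6 * Q * lam ≤ β * (K₀ : ℝ) ^ (5 / 2 - 2 * α) := by
    rw [div_le_iff₀ hβ] at hK5
    linarith
  -- the effective rates `κ ^ n * L n = β * K₀ ^ (5/2) * μ ^ n`
  have hLn : ∀ n : ℕ, ((K₀ : ℝ) * R ^ n) ^ 2 * √((K₀ : ℝ) * R ^ n)
      = (K₀ : ℝ) ^ (5 / 2 : ℝ) * lam ^ n := fun n => by
    rw [sq_sqrt_eq (by linarith [hKRn n]), geom_rpow hK0 hR0, ← hlame]
  have hkL : ∀ n : ℕ, κ ^ n * (β * (((K₀ : ℝ) * R ^ n) ^ 2 * √((K₀ : ℝ) * R ^ n)))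
      = β * ((K₀ : ℝ) ^ (5 / 2 : ℝ) * μ ^ n) := fun n => by
    rw [hLn n, hμκ, mul_pow]
    ring
  have hK52 : 0 < (K₀ : ℝ) ^ (5 / 2 : ℝ) := Real.rpow_pos_of_pos hK0 _
  have hK2a : 0 < (K₀ : ℝ) ^ (2 * α) := Real.rpow_pos_of_pos hK0 _
  have hK52e : (K₀ : ℝ) ^ (5 / 2 : ℝ) = (K₀ : ℝ) ^ (5 / 2 - 2 * α) * (K₀ : ℝ) ^ (2 * α) := by
    rw [← Real.rpow_add hK0]; congr 1; ring
  have hQμ : 10 ^ 6 * Q * μ ≤ β * (K₀ : ℝ) ^ (5 / 2 - 2 * α) := le_trans (by gcongr) hkey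
  obtain ⟨ℓ, hℓ0, hℓs⟩ : ∃ ℓ : ℕ → ℝ, ℓ 0 = Q * (K₀ : ℝ) ^ (2 * α) ∧
      ∀ n, ℓ (n + 1) = 9 / 10 *
        (κ ^ n * (β * (((K₀ : ℝ) * R ^ n) ^ 2 * √((K₀ : ℝ) * R ^ n)))) :=
    ⟨fun n => Nat.casesOn n (Q * (K₀ : ℝ) ^ (2 * α)) (fun n => 9 / 10 *
        (κ ^ n * (β * (((K₀ : ℝ) * R ^ n) ^ 2 * √((K₀ : ℝ) * R ^ n))))), rfl, fun _ => rfl⟩
  have hℓlow : ∀ n : ℕ, Q * ((K₀ : ℝ) ^ (2 * α) * μ ^ n) ≤ ℓ n := by
    intro n
    rcases n with _ | n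
    · rw [hℓ0, pow_zero, mul_one]
    · rw [hℓs n, hkL n, hK52e, pow_succ]
      have hμn : 0 < μ ^ n := pow_pos hμ0 n
      have h1 : Q * μ ≤ 9 / 10 * (β * (K₀ : ℝ) ^ (5 / 2 - 2 * α)) := by
        have h2 : 0 < Q * μ := mul_pos hQ0 hμ0
        nlinarith
      calc Q * ((K₀ : ℝ) ^ (2 * α) * (μ ^ n * μ))
          = (Q * μ) * ((K₀ : ℝ) ^ (2 * α) * μ ^ n) := by ring
        _ ≤ (9 / 10 * (β * (K₀ : ℝ) ^ (5 / 2 - 2 * α))) * ((K₀ : ℝ) ^ (2 * α) * μ ^ n) :=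
            mul_le_mul_of_nonneg_right h1 (by positivity)
        _ = _ := by ring
  refine ⟨K₀, R, κ, μ, lam, κ * Real.exp (-(6 / 100 * μ)),
    ℓ, hK1, ⟨N, rfl⟩, hK2, hR1,
    le_trans (by norm_num) hR2, rfl,
    mul_pos hκ0 (Real.exp_pos _), ?_, ?_, ?_, ?_, ?_, ?_, ?_, ?_⟩
  · -- γ R^p ≤ 1
    calc κ * Real.exp (-(6 / 100 * μ)) * (R : ℝ) ^ p
        ≤ 1 * Real.exp (-(6 / 100 * μ)) * Real.exp (1 / 10000 * μ) := by gcongr
      _ = Real.exp (-(6 / 100 * μ) + 1 / 10000 * μ) := by rw [one_mul, ← Real.exp_add]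
      _ ≤ 1 := by
          rw [Real.exp_le_one_iff]
          linarith
  · intro n
    refine le_trans (le_of_eq ?_) (hℓlow n)
    rw [geom_rpow hK0 hR0, hQ]
    ring
  · intro n
    rw [hkL n]
    have e1 : 2 * Real.pi * (13 / 10 * ((K₀ : ℝ) * R ^ (n + 1)))
        = (2 * Real.pi * (13 / 10) * R) * ((K₀ : ℝ) * R ^ n) := by rw [pow_succ]; ring
    rw [e1, Real.mul_rpow (by positivity) (by linarith [hKRn n]), geom_rpow hK0 hR0]
    have h2 : (2 * Real.pi * (13 / 10) * (R : ℝ)) ≤ 9 * R := by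
      have := Real.pi_lt_d2
      have h3 : 2 * Real.pi * (13 / 10) ≤ 9 := by linarith
      exact mul_le_mul_of_nonneg_right h3 hR0.le
    have h3 : (2 * Real.pi * (13 / 10) * (R : ℝ)) ^ (2 * α) ≤ (9 * (R : ℝ)) ^ (3 : ℝ) := by
      calc (2 * Real.pi * (13 / 10) * (R : ℝ)) ^ (2 * α) ≤ (9 * (R : ℝ)) ^ (2 * α) :=
            Real.rpow_le_rpow (by positivity) h2 (by linarith)
        _ ≤ (9 * (R : ℝ)) ^ (3 : ℝ) :=
            Real.rpow_le_rpow_of_exponent_le (by linarith) (by linarith)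
    have h4 : (9 * (R : ℝ)) ^ (3 : ℝ) = 729 * (R : ℝ) ^ 3 := by
      rw [show (3 : ℝ) = ((3 : ℕ) : ℝ) by norm_num, Real.rpow_natCast]
      ring
    rw [h4] at h3
    have h5 : 2 * ν * 729 * (R : ℝ) ^ 3 ≤ Real.exp μ * β := by
      have h6 : 2 * ν * 729 / β * (R : ℝ) ^ 3 ≤ Real.exp μ := by
        have := hF4.out.trans (hexp 1 (by norm_num))
        rwa [one_mul] at this
      calc 2 * ν * 729 * (R : ℝ) ^ 3 = (2 * ν * 729 / β * (R : ℝ) ^ 3) * β := by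
            field_simp
        _ ≤ Real.exp μ * β := mul_le_mul_of_nonneg_right h6 hβ.le
    have h7 : (K₀ : ℝ) ^ (2 * α) ≤ (K₀ : ℝ) ^ (5 / 2 : ℝ) :=
      Real.rpow_le_rpow_of_exponent_le hK1' (by linarith)
    have h11 : ((R : ℝ) ^ (2 * α)) ^ n ≤ μ ^ n := le_refl _
    calc 2 * (ν * ((2 * Real.pi * (13 / 10) * (R : ℝ)) ^ (2 * α)
          * ((K₀ : ℝ) ^ (2 * α) * ((R : ℝ) ^ (2 * α)) ^ n)))
        ≤ 2 * (ν * ((729 * (R : ℝ) ^ 3) * ((K₀ : ℝ) ^ (5 / 2 : ℝ) * μ ^ n))) := by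
          gcongr
      _ = 2 * ν * 729 * (R : ℝ) ^ 3 * ((K₀ : ℝ) ^ (5 / 2 : ℝ) * μ ^ n) := by ring
      _ ≤ Real.exp μ * β * ((K₀ : ℝ) ^ (5 / 2 : ℝ) * μ ^ n) :=
          mul_le_mul_of_nonneg_right h5 (by positivity)
      _ = Real.exp μ * (β * ((K₀ : ℝ) ^ (5 / 2 : ℝ) * μ ^ n)) := by ring
  · -- upper bound by the order `2 α`
    refine ⟨β * (K₀ : ℝ) ^ (5 / 2 : ℝ), by positivity, fun n => ?_⟩
    rw [hkL n, ← mul_assoc]
    have h1 : (R : ℝ) ^ n ≤ 13 / 10 * ((K₀ : ℝ) * R ^ (n + 1)) := by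
      have h2 : (R : ℝ) ^ n ≤ (R : ℝ) ^ (n + 1) := pow_le_pow_right₀ hR1' (Nat.le_succ n)
      have h3 : (R : ℝ) ^ (n + 1) ≤ (K₀ : ℝ) * R ^ (n + 1) :=
        le_mul_of_one_le_left (by positivity) hK1'
      have h4 : (0 : ℝ) ≤ (K₀ : ℝ) * R ^ (n + 1) := by positivity
      linarith
    have h2 : μ ^ n ≤ (13 / 10 * ((K₀ : ℝ) * R ^ (n + 1))) ^ (2 * α) := by
      calc μ ^ n = ((R : ℝ) ^ n) ^ (2 * α) := by
            have := geom_rpow one_pos hR0 (2 * α) n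
            rw [one_mul, Real.one_rpow, one_mul] at this
            exact this.symm
        _ ≤ _ := Real.rpow_le_rpow (by positivity) h1 (by linarith)
    exact mul_le_mul_of_nonneg_left h2 (by positivity)
  · -- D K₀ √K₀
    have h1 : 1 ≤ D * (K₀ : ℝ) := by
      rw [div_le_iff₀ hD] at hK3
      linarith
    nlinarith [mul_pos hD hK0]
  · -- R √R ≤ exp D
    have h1 : 1 / D * (R : ℝ) ^ 2 ≤ Real.exp (μ / 1000) := by
      have := hF5.out.trans (hexp (1 / 1000) (by norm_num))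
      rwa [show 1 / 1000 * μ = μ / 1000 by ring] at this
    have h2 : √(R : ℝ) ≤ R := by
      have h3 := Real.sq_sqrt hR0.le
      have h4 : 1 ≤ √(R : ℝ) := by rw [Real.one_le_sqrt]; exact hR1'
      nlinarith
    calc (R : ℝ) * √(R : ℝ) ≤ R * R := mul_le_mul_of_nonneg_left h2 hR0.le
      _ = (1 / D * (R : ℝ) ^ 2) * D := by field_simp
      _ ≤ Real.exp (μ / 1000) * D := mul_le_mul_of_nonneg_right h1 hD.le
  · -- 10^9 ≤ κ R √R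
    have h1 : κ * ((R : ℝ) * √(R : ℝ)) = μ / R := by
      rw [hμκ, hlam]
      field_simp
    rw [h1, le_div_iff₀ hR0]
    calc (10 : ℝ) ^ 9 * R ≤ R * R := by
          apply mul_le_mul_of_nonneg_right _ hR0.le
          exact le_trans (by norm_num) hRr
      _ = (R : ℝ) ^ 2 := by ring
      _ ≤ μ := hμR2
  · intro C B hC1 hC2 hB1 hB2
    refine ⟨hκ0, hκ1, hκs, hμκ, ?_, ?_, ?_, ?_, hμR2, ?_, ?_, ?_, ?_, hB1, hB2, ?_, ?_, ?_, ?_⟩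
    · -- 10^30 ≤ μ
      calc (10 : ℝ) ^ 30 = ((10 : ℝ) ^ 15) ^ 2 := by norm_num
        _ ≤ (R : ℝ) ^ 2 := by gcongr
        _ ≤ μ := hμR2
    · -- 1 ≤ L 0
      show 1 ≤ β * (((K₀ : ℝ) * R ^ 0) ^ 2 * √((K₀ : ℝ) * R ^ 0))
      rw [pow_zero, mul_one]
      have h1 : 1 ≤ β * (K₀ : ℝ) := by
        rw [div_le_iff₀ hβ] at hK4
        linarith
      have h2 : (K₀ : ℝ) ≤ (K₀ : ℝ) ^ 2 * √(K₀ : ℝ) := by
        have : (K₀ : ℝ) * 1 ≤ (K₀ : ℝ) ^ 2 * √(K₀ : ℝ) :=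
          mul_le_mul (by nlinarith) hsK zero_le_one (by positivity)
        linarith
      nlinarith [mul_le_mul_of_nonneg_left h2 hβ.le]
    · -- L (n+1) = lam * L n
      intro n
      show β * (((K₀ : ℝ) * R ^ (n + 1)) ^ 2 * √((K₀ : ℝ) * R ^ (n + 1)))
        = lam * (β * (((K₀ : ℝ) * R ^ n) ^ 2 * √((K₀ : ℝ) * R ^ n)))
      rw [hLn, hLn]
      ring
    · exact le_trans (by norm_num) hRr
    · have : 0 ≤ 100 * (R : ℝ) ^ 3 / β := by positivity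
      linarith
    · -- exp_big
      have h1 : 1 + 100 * (R : ℝ) ^ 3 / β ≤ (1 + 100 / β) * (R : ℝ) ^ 3 := by
        have h2 : (1 : ℝ) ≤ (R : ℝ) ^ 3 := hRn 3
        have h3 : (1 + 100 / β) * (R : ℝ) ^ 3 = (R : ℝ) ^ 3 + 100 * (R : ℝ) ^ 3 / β := by
          ring
        rw [h3]
        linarith
      have h2 := hF6.out.trans (hexp (1 / 10 ^ 6) (by norm_num))
      rw [show 1 / (10 : ℝ) ^ 6 * μ = μ / 10 ^ 6 by ring, hFc.out] at h2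
      calc (10 ^ 6 * (1 + 100 * (R : ℝ) ^ 3 / β) ^ 4 * lam ^ 3) ^ 10
          ≤ (10 ^ 6 * ((1 + 100 / β) * (R : ℝ) ^ 3) ^ 4 * ((R : ℝ) ^ 3) ^ 3) ^ 10 := by gcongr
        _ = (10 ^ 6 * (1 + 100 / β) ^ 4 * (R : ℝ) ^ 21) ^ 10 := by
            congr 1
            rw [mul_pow (1 + 100 / β)]
            ring
        _ = (10 ^ 6 * (1 + 100 / β) ^ 4) ^ 10 * (R : ℝ) ^ 210 := by
            rw [mul_pow _ ((R : ℝ) ^ 21), ← pow_mul]
        _ ≤ _ := h2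
    · -- C_lo
      intro n
      have h1 := hC1 n
      have h2 : κ * Real.exp (-(601 / 10000 * μ)) * (R : ℝ) ^ p ≤ C n * (R : ℝ) ^ p := by
        calc κ * Real.exp (-(601 / 10000 * μ)) * (R : ℝ) ^ p
            ≤ κ * Real.exp (-(601 / 10000 * μ)) * Real.exp (1 / 10000 * μ) := by gcongr
          _ = κ * Real.exp (-(6 / 100 * μ)) := by
              rw [mul_assoc, ← Real.exp_add]; congr 2; ring
          _ ≤ _ := h1
      exact le_of_mul_le_mul_right h2 hRp0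
    · -- C_hi
      intro n
      calc C n ≤ κ * Real.exp (-(6 / 100 * μ)) * (R : ℝ) ^ p := hC2 n
        _ ≤ κ * Real.exp (-(6 / 100 * μ)) * Real.exp (1 / 10000 * μ) := by gcongr
        _ = κ * Real.exp (-(599 / 10000 * μ)) := by
            rw [mul_assoc, ← Real.exp_add]; congr 2; ring
    · intro n
      exact le_trans (by positivity) (hℓlow n)
    · -- ℓ_zero
      show 10 ^ 6 * (ℓ 0 * μ) ≤ β * (((K₀ : ℝ) * R ^ 0) ^ 2 * √((K₀ : ℝ) * R ^ 0))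
      rw [hℓ0, pow_zero, mul_one, sq_sqrt_eq hK0, hK52e]
      calc 10 ^ 6 * (Q * (K₀ : ℝ) ^ (2 * α) * μ) = (10 ^ 6 * Q * μ) * (K₀ : ℝ) ^ (2 * α) := by
            ring
        _ ≤ (β * (K₀ : ℝ) ^ (5 / 2 - 2 * α)) * (K₀ : ℝ) ^ (2 * α) :=
            mul_le_mul_of_nonneg_right hQμ hK2a.le
        _ = _ := by ring
    · -- ℓ_succ
      exact hℓs
    · -- ℓ_low
      refine ⟨Q * (K₀ : ℝ) ^ (2 * α), by positivity, fun n => ?_⟩
      have h1 : (R : ℝ) ^ (2 * n) ≤ μ ^ n := by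
        rw [pow_mul]
        exact pow_le_pow_left₀ (by positivity) hμR2 n
      calc Q * (K₀ : ℝ) ^ (2 * α) * (R : ℝ) ^ (2 * n)
          ≤ Q * (K₀ : ℝ) ^ (2 * α) * μ ^ n := mul_le_mul_of_nonneg_left h1 (by positivity)
        _ = Q * ((K₀ : ℝ) ^ (2 * α) * μ ^ n) := by ring
        _ ≤ ℓ n := hℓlow n

end Pool.Agent.Y319.EP
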